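import Pool.Agent.X333.NM.Tow
import Pool.Agent.TH710.ND.Lang

/-!
Varieties which are not of log general type, with a generically finite map to the complement of
coordinate hyperplanes in a projective variety given by nested sums of high powers of monomials, are
covered by orbits of one-parameter groups.
-/

set_option autoImplicit false

namespace Pool.Agent.X333.NM

open FF MvPolynomial IntermediateField Pool.Agent.W602.GT Pool.Agent.TH710.ND
open Pool.Agent.H159R3.GGLLog Pool.Agent.W603.BP Pool.Agent.H159R3.Exp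

variable {n : ℕ} {ι : Type}

section alg

variable {k : Type} [Field k]

/-- `K` is the function field of a variety of dimension `w` with a generically finite rational map
to `X = {F = 0, x_j ≠ 0 for all j in U}`; `y` is the image of its generic point. -/
structure MapU (U : Set (Fin (n + 1))) (F : ι → MvPolynomial (Fin (n + 1)) k) (K : Type)
    [Field K] [Algebra k K] (w : ℕ) (y : Fin (n + 1) → K) : Prop where
  ne : y ≠ 0
  unit : ∀ j ∈ U, y j ≠ 0
  mem : ∀ i, val y (F i) = 0
  alg : Algebra.IsAlgebraic (coords k y) K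
  dim : Algebra.trdeg k K = w

theorem map_of_sub {U : Set (Fin (n + 1))} {F : ι → MvPolynomial (Fin (n + 1)) k} {K : Type}
    [Field K] [Algebra k K] {w : ℕ} {y : Fin (n + 1) → K} (hy : SubVarU U F K w y) :
    MapU U F K w y := by
  refine ⟨hy.ne, hy.unit, hy.mem, ?_, hy.dim⟩
  rw [hy.gen]
  infer_instance

variable [CharZero k] [IsAlgClosed k]

/-- **Varieties which are not of log general type are covered by orbits.** -/
theorem orbits_of_not {U : Set (Fin (n + 1))} {F : ι → MvPolynomial (Fin (n + 1)) k}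
    {s N h : ℕ} (hF : ∀ e, NestedIn IsMono s N h (F e)) (hN : bnd n s h ≤ N)
    {K : Type} [Field K] [Algebra k K] {w : ℕ} {y : Fin (n + 1) → K} (hy : MapU U F K w y)
    {Bd : Place k K → Prop} (hgt : ¬ LogGeneralType k K w Bd)
    {G : MvPolynomial (Fin (n + 1)) k} (hG : val y G ≠ 0) :
    ∃ x b, DiagCurve U F x b ∧ val x G ≠ 0 := by
  classical
  obtain ⟨b, i, i', hi, hi', hb, hwc⟩ := sparse_n hF hN hy.ne hy.alg hy.dim hy.mem hgt
  let H : MvPolynomial (Fin (n + 1)) k := G * (MvPolynomial.X i * MvPolynomial.X i') *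
    ∏ j ∈ Finset.univ.filter (fun j => j ∈ U), MvPolynomial.X j
  have hH : MvPolynomial.aeval y H ≠ 0 := by
    simp only [H, map_mul, map_prod, MvPolynomial.aeval_X]
    refine mul_ne_zero (mul_ne_zero hG (mul_ne_zero hi hi')) ?_
    exact Finset.prod_ne_zero_iff.2 fun j hj => hy.unit j (Finset.mem_filter.1 hj).2
  obtain ⟨x, hx, hx0⟩ := specialise y H hH
  simp only [H, map_mul, map_prod, MvPolynomial.aeval_X] at hx
  have h1 := left_ne_zero_of_mul hx
  have h2 := right_ne_zero_of_mul hx
  have h3 := right_ne_zero_of_mul h1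
  refine ⟨x, b, diag_of_wc (fun j hj => ?_) (fun e v => hx0 _ (hwc e v))
    ⟨i, i', left_ne_zero_of_mul h3, right_ne_zero_of_mul h3, hb⟩, left_ne_zero_of_mul h1⟩
  exact Finset.prod_ne_zero_iff.1 h2 j (Finset.mem_filter.2 ⟨Finset.mem_univ _, hj⟩)

/-- The Zariski closure in `X` of the union of the one-dimensional orbits, contained in `X`, of
diagonal one-parameter groups. -/
def SpDiag (U : Set (Fin (n + 1))) (F : ι → MvPolynomial (Fin (n + 1)) k) :
    Set (Fin (n + 1) → k) :=
  {x | x ∈ ConeU U F ∧ ∀ G : MvPolynomial (Fin (n + 1)) k, IsForm G →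
    (∀ x' b, DiagCurve U F x' b → val x' G = 0) → val x G = 0}

/-- The Zariski closure in `X` of the union of the images of the varieties which are not of log
general type under generically finite maps to `X`. -/
def SpMap (U : Set (Fin (n + 1))) (F : ι → MvPolynomial (Fin (n + 1)) k) :
    Set (Fin (n + 1) → k) :=
  {x | x ∈ ConeU U F ∧ ∀ G : MvPolynomial (Fin (n + 1)) k, IsForm G →
    (∀ (K : Type) [Field K] [Algebra k K] (w : ℕ) (y : Fin (n + 1) → K), 1 ≤ w →
      MapU U F K w y → ¬ LogGeneralType k K w (OffU U y) → val y G = 0) → val x G = 0}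

/-- **The algebraic special sets.** -/
theorem alg_special {U : Set (Fin (n + 1))} {F : ι → MvPolynomial (Fin (n + 1)) k}
    {s N h : ℕ} (hF : ∀ e, IsForm (F e) ∧ NestedIn IsMono s N h (F e)) (hN : bnd n s h ≤ N) :
    SpAlgU U F = SpDiag U F ∧ SpMap U F = SpDiag U F := by
  have h1 : SpAlgU U F ⊆ SpMap U F := by
    rintro x ⟨hx, h⟩
    refine ⟨hx, fun G hG hM => h G hG ?_⟩
    intro K _ _ w y hw hy hgt
    exact hM K w y hw (map_of_sub hy) hgt
  have h2 : SpMap U F ⊆ SpDiag U F := by
    rintro x ⟨hx, h⟩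
    refine ⟨hx, fun G hG hD => h G hG ?_⟩
    intro K _ _ w y hw hy hgt
    by_contra hne
    obtain ⟨x0, b, hd, hx0⟩ := orbits_of_not (fun e => (hF e).2) hN hy hgt hne
    exact hx0 (hD x0 b hd)
  have h3 : SpDiag U F ⊆ SpAlgU U F := by
    rintro x ⟨hx, h⟩
    refine ⟨hx, fun G hG hA => h G hG ?_⟩
    intro x0 b hd
    obtain ⟨K, _, _, y, hy, hgt, htr⟩ := orbit_subvar (fun e => (hF e).1) hd
    exact htr G hG (hA K 1 y le_rfl hy hgt)
  exact ⟨(h1.trans h2).antisymm h3, h2.antisymm (h3.trans h1)⟩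

end alg

section cx

variable {U : Set (Fin (n + 1))} {F : ι → MvPolynomial (Fin (n + 1)) ℂ}

theorem eval_wp (b : Fin (n + 1) → ℤ) (v : ℤ) (G : MvPolynomial (Fin (n + 1)) ℂ)
    (x : Fin (n + 1) → ℂ) : val x (wc b v G) = MvPolynomial.eval x (wp b v G) :=
  wc_eq b v G x

/-- orbits and torus curves -/
theorem spDiag_eq (hE : EntP U F) : SpDiag U F = SpT U F := by
  ext x
  constructor
  · rintro ⟨hx, h⟩
    refine ⟨by rw [← cone_eq]; exact hx, fun G hG hv => ?_⟩
    rw [← val_eval]
    refine h G hG fun x' b hd => ?_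
    have h1 := hv _ (torus_of_diag hd) 1 one_ne_zero
    rw [val_eval]
    simpa using h1
  · rintro ⟨hx, h⟩
    refine ⟨by rw [cone_eq]; exact hx, fun G hG hD => ?_⟩
    rw [val_eval]
    refine h G hG fun v hv t ht => ?_
    by_contra hne
    have ht1 : MvPolynomial.eval (v (Complex.exp (Complex.log t))) G ≠ 0 := by
      rw [Complex.exp_log ht]
      exact hne
    obtain ⟨z0, b, j, l, hj, hl, hbjl, hG0, hs⟩ := hE _ hv.entire G _ ht1
    have hd : DiagCurve U F (v (Complex.exp z0)) b := diag_of_wc (hv.entire.2.1 z0).2.1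
      (fun e w => by rw [eval_wp]; exact hs e w) ⟨j, l, hj, hl, hbjl⟩
    have h1 := hD _ b hd
    rw [val_eval] at h1
    exact hG0 h1

/-- log general type implies hyperbolicity modulo a proper closed subset -/
theorem brody_of_lgt [Finite ι] (hF : ∀ i, IsForm (F i)) (hE : EntP U F) (hP : PicP U F)
    (hirr : Irred U F) {K : Type} [Field K] [Algebra ℂ K] {w : ℕ} {y : Fin (n + 1) → K}
    (hy : SubVarU U F K w y) (hg : GenericU U F y) (hgt : LogGeneralType ℂ K w (OffU U y)) :
    PseudoPicard U F := by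
  refine picard_of_triv hF hP hirr fun b hb => ?_
  by_contra hnt
  exact not_gt_of_action hy hg hb hnt hgt

/-- **The generalised Green-Griffiths-Lang conjecture.** -/
theorem five_nested [Finite ι] {s N h : ℕ}
    (hF : ∀ e, IsForm (F e) ∧ NestedIn IsMono s N h (F e))
    (hN : (n + 1) * ((h + 1) * (2 * s + 1) ^ 5) ≤ N) :
    (SpAlgU U F = SpH U F ∧ SpMap U F = SpH U F ∧ SpP U F = SpH U F ∧ SpT U F = SpH U F) ∧
    (∀ (K : Type) [Field K] [Algebra ℂ K] (w : ℕ) (y : Fin (n + 1) → K), 1 ≤ w →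
      SubVarU U F K w y → GenericU U F y → Irred U F →
      [LogGeneralType ℂ K w (OffU U y), SpAlgU U F ≠ Pts U F, SpP U F ≠ Pts U F,
        SpH U F ≠ Pts U F, SpT U F ≠ Pts U F].TFAE) := by
  obtain ⟨hNb, hN2, hN1⟩ := bnd_le hN
  have hC : ∀ i, TowerU U (F i) := fun i => tower_tower (towerM_of hN2 hN1 (hF i).2)
  have hE : EntP U F := ent_tower hC
  have hP : PicP U F := pic_tower hC
  obtain ⟨e2, e3⟩ := special_gen hE hP
  obtain ⟨a1, a2⟩ := alg_special (U := U) hF hNb
  have a3 := spDiag_eq hE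
  have e1 : SpAlgU U F = SpH U F := by rw [a1, a3, e3]
  have e4 : SpMap U F = SpH U F := by rw [a2, a3, e3]
  refine ⟨⟨e1, e4, e2, e3⟩, ?_⟩
  intro K _ _ w y hw hy hgen hirr
  have h4 : LogGeneralType ℂ K w (OffU U y) ↔ SpH U F ≠ Pts U F := by
    constructor
    · intro hgt
      rw [← brody_iff]
      exact brody_of_picard U F (brody_of_lgt (fun i => (hF i).1) hE hP hirr hy hgen hgt)
    · intro hne
      by_contra hgt
      apply hne
      rw [← e1]
      apply Set.Subset.antisymm
      · intro x hx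
        rw [← cone_eq]
        exact hx.1
      · intro x hx
        rw [← cone_eq] at hx
        refine ⟨hx, fun G hG hA => ?_⟩
        exact hgen G hG (hA K w y hw hy hgt) x hx
  rw [e1, e2, e3]
  tfae_have 1 ↔ 4 := h4
  tfae_have 2 ↔ 4 := Iff.rfl
  tfae_have 3 ↔ 4 := Iff.rfl
  tfae_have 5 ↔ 4 := Iff.rfl
  tfae_finish

end cx

end Pool.Agent.X333.NM
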