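import Pool.Agent.W602.GT.PsFin
import Pool.Agent.TH710.NW.Germ
import Pool.Agent.TH710.NW.Mono2

/-!
Quasi-projective varieties, complements of coordinate hyperplanes, such that the entire curves and
the essential punctured discs in them give one-parameter groups: special sets.
-/

set_option autoImplicit false

namespace Pool.Agent.X333.NM

open MvPolynomial Filter Metric Topology Pool.Agent.H159R3.GGLLog Pool.Agent.H159R3.NV
open Pool.Agent.H159R3 Pool.Agent.W603.BP Pool.Agent.H159R3.Exp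

variable {n : ℕ} {ι : Type}

/-- The part of weight `v` of `F`. -/
noncomputable def wp (b : Fin (n + 1) → ℤ) (v : ℤ) (F : MvPolynomial (Fin (n + 1)) ℂ) :
    MvPolynomial (Fin (n + 1)) ℂ :=
  sub F (F.support.filter (fun α => ∑ j, (α j : ℤ) * b j = v))

/-- Entire curves give one-parameter groups. -/
def EntP (U : Set (Fin (n + 1))) (F : ι → MvPolynomial (Fin (n + 1)) ℂ) : Prop :=
  ∀ f, EntireCurve U F f → ∀ (G : MvPolynomial (Fin (n + 1)) ℂ) (z1 : ℂ), eval (f z1) G ≠ 0 →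
    ∃ (z0 : ℂ) (b : Fin (n + 1) → ℤ) (j k : Fin (n + 1)), f z0 j ≠ 0 ∧ f z0 k ≠ 0 ∧ b j ≠ b k ∧
      eval (f z0) G ≠ 0 ∧ ∀ i (v : ℤ), eval (f z0) (wp b v (F i)) = 0

/-- Essential punctured discs give one-parameter groups. -/
def PicP (U : Set (Fin (n + 1))) (F : ι → MvPolynomial (Fin (n + 1)) ℂ) : Prop :=
  ∀ f, PCurve U F f → ¬ Extends f →
    ∃ (b : Fin (n + 1) → ℤ) (j k : Fin (n + 1)), Nz (fun w => f w j) ∧ Nz (fun w => f w k) ∧
      b j ≠ b k ∧ ∀ i (v : ℤ), ∀ z ∈ PB 1, eval (f z) (wp b v (F i)) = 0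

section

variable {U : Set (Fin (n + 1))} {F : ι → MvPolynomial (Fin (n + 1)) ℂ}

theorem two_inj {a b : ℤ} (h : (2 : ℂ) ^ a = 2 ^ b) : a = b := two_pow_inj h

/-- the orbit of a point -/
theorem orbit_curve {x : Fin (n + 1) → ℂ} (hx : x ∈ Pts U F) {b : Fin (n + 1) → ℤ}
    {j k : Fin (n + 1)} (hj : x j ≠ 0) (hk : x k ≠ 0) (hb : b j ≠ b k)
    (hs : ∀ i (v : ℤ), eval x (wp b v (F i)) = 0) :
    TorusCurve U F (fun t j => x j * t ^ b j) := by
  refine ⟨fun j => (Laur.const _).mul (Laur.zpow _), fun t ht => orbit_mem hx hs ht, 2, 1,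
    two_ne_zero, one_ne_zero, fun c hc => ?_⟩
  have h3 : ∀ l, x l ≠ 0 → (2 : ℂ) ^ b l = c := by
    intro l hl
    have h4 := congrFun hc l
    simp only [Pi.smul_apply, smul_eq_mul, one_zpow, mul_one] at h4
    rw [mul_comm] at h4
    exact mul_right_cancel₀ hl h4
  exact hb (two_inj ((h3 j hj).trans (h3 k hk).symm))

theorem torus_of_ent (hE : EntP U F) (f : ℂ → Fin (n + 1) → ℂ) (hf : EntireCurve U F f)
    (G : MvPolynomial (Fin (n + 1)) ℂ) (z1 : ℂ) (hG : eval (f z1) G ≠ 0) :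
    ∃ v, TorusCurve U F v ∧ eval (v 1) G ≠ 0 := by
  obtain ⟨z0, b, j, k, hj, hk, hbjk, hG0, hs⟩ := hE f hf G z1 hG
  exact ⟨_, orbit_curve (hf.2.1 z0) hj hk hbjk hs, by simpa using hG0⟩

theorem torus_of_pic (hP : PicP U F) (f : ℂ → Fin (n + 1) → ℂ) (hf : PCurve U F f)
    (hE : ¬ Extends f) (G : MvPolynomial (Fin (n + 1)) ℂ) (z1 : ℂ)
    (hz1 : z1 ∈ ball (0 : ℂ) 1 \ {0}) (hG : eval (f z1) G ≠ 0) :
    ∃ v, TorusCurve U F v ∧ eval (v 1) G ≠ 0 := by
  obtain ⟨b, j, k, hj, hk, hbjk, hs⟩ := hP f hf hE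
  have hGn : Nz (fun w => eval (f w) G) := nz_of_on (eval_an hf.an G) (mem_disc.mp hz1) hG
  obtain ⟨z0, hz0, hgood⟩ := good_point
    (fun a : Fin 3 => fun w => if a = 0 then f w j else if a = 1 then f w k else eval (f w) G)
    (by
      intro a
      fin_cases a
      · exact hf.an j
      · exact hf.an k
      · exact eval_an hf.an G)
    (by
      intro a
      fin_cases a
      · exact hj
      · exact hk
      · exact hGn)
  have h0 : f z0 j ≠ 0 := hgood 0
  have h1 : f z0 k ≠ 0 := hgood 1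
  have h2 : eval (f z0) G ≠ 0 := hgood 2
  exact ⟨_, orbit_curve (hf.2 z0 (mem_disc.mpr hz0)) h0 h1 hbjk (fun i v => hs i v z0 hz0),
    by simpa using h2⟩

/-- **Special sets.** -/
theorem special_gen (hE : EntP U F) (hP : PicP U F) : SpP U F = SpH U F ∧ SpT U F = SpH U F := by
  have h1 : SpT U F ⊆ SpH U F := by
    rintro x ⟨hx, h⟩
    refine ⟨hx, fun G hG hf => h G hG fun v hv t ht => ?_⟩
    have := hf _ hv.entire (Complex.log t)
    simpa only [Complex.exp_log ht] using this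
  have h2 : SpH U F ⊆ SpT U F := by
    rintro x ⟨hx, h⟩
    refine ⟨hx, fun G hG hv => h G hG fun f hf z => ?_⟩
    by_contra hz
    obtain ⟨v, hv', hv1⟩ := torus_of_ent hE f hf G z hz
    exact hv1 (hv v hv' 1 one_ne_zero)
  have h3 : SpP U F ⊆ SpT U F := by
    rintro x ⟨hx, h⟩
    refine ⟨hx, fun G hG hv => h G hG fun f hf hE z hz => ?_⟩
    by_contra hz2
    obtain ⟨v, hv', hv1⟩ := torus_of_pic hP f hf hE G z hz hz2
    exact hv1 (hv v hv' 1 one_ne_zero)
  have h4 : SpH U F ⊆ SpP U F := by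
    rintro x ⟨hx, h⟩
    refine ⟨hx, fun G hG hf => h G hG fun f hfc z => ?_⟩
    obtain ⟨h3, h4⟩ := sin_curve hfc
    obtain ⟨w, hw, hwz⟩ := sin_point z
    have := hf _ h3 h4 w hw
    rwa [hwz] at this
  exact ⟨(h3.trans h1).antisymm h4, h1.antisymm h2⟩

theorem trivial_of_brody (hirr : Irred U F) (h : PseudoBrody U F) (b : Fin (n + 1) → ℤ)
    (hb : Preserves U b F) : ActsTrivially U b F := by
  obtain ⟨G, -, ⟨x1, hx1, hx1G⟩, hG⟩ := h
  by_contra hnt
  unfold ActsTrivially at hnt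
  push Not at hnt
  obtain ⟨x0, hx0, t0, ht0, hnt⟩ := hnt
  have hjk : ∃ j k, x0 j ≠ 0 ∧ x0 k ≠ 0 ∧ b j ≠ b k := by
    by_contra hcon
    push Not at hcon
    obtain ⟨k, hk⟩ := Function.ne_iff.mp hx0.1
    apply hnt (t0 ^ b k)
    funext j
    rw [Pi.smul_apply, smul_eq_mul]
    by_cases hj : x0 j = 0
    · rw [hj, zero_mul, mul_zero]
    · rw [hcon j k hj hk, mul_comm]
  obtain ⟨j, k, hj, hk, hbjk⟩ := hjk
  obtain ⟨y, hy, hyG⟩ := irred_prod hirr (Finset.univ : Finset (Fin 3))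
    ![G, MvPolynomial.X j, MvPolynomial.X k] (by
      intro l _
      fin_cases l
      · exact ⟨x1, hx1, hx1G⟩
      · exact ⟨x0, hx0, by simpa using hj⟩
      · exact ⟨x0, hx0, by simpa using hk⟩)
  rw [map_prod, Fin.prod_univ_three] at hyG
  simp only [Matrix.cons_val_zero, Matrix.cons_val_one, Matrix.cons_val, eval_X] at hyG
  have hyk : y k ≠ 0 := right_ne_zero_of_mul hyG
  have hyj : y j ≠ 0 := right_ne_zero_of_mul (left_ne_zero_of_mul hyG)
  have hyG' : eval y G ≠ 0 := left_ne_zero_of_mul (left_ne_zero_of_mul hyG)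
  apply hyG'
  have ht : TorusCurve U F (fun t j => y j * t ^ b j) := by
    refine ⟨fun j => (Laur.const _).mul (Laur.zpow _), fun t ht => hb y hy t ht, 2, 1,
      two_ne_zero, one_ne_zero, fun c hc => ?_⟩
    have h3 : ∀ l, y l ≠ 0 → (2 : ℂ) ^ b l = c := by
      intro l hl
      have h4 := congrFun hc l
      simp only [Pi.smul_apply, smul_eq_mul, one_zpow, mul_one] at h4
      rw [mul_comm] at h4
      exact mul_right_cancel₀ hl h4
    exact hbjk (two_inj ((h3 j hyj).trans (h3 k hyk).symm))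
  have h1 := hG _ ht.entire 0
  simpa using h1

/-- pseudo-Brody hyperbolicity -/
theorem brody_gen [Finite ι] (hF : ∀ i, ∃ d, (F i).IsHomogeneous d) (hE : EntP U F)
    (hirr : Irred U F) :
    PseudoBrody U F ↔ ∀ b : Fin (n + 1) → ℤ, Preserves U b F → ActsTrivially U b F := by
  classical
  have := Fintype.ofFinite ι
  constructor
  · exact trivial_of_brody hirr
  · intro hno
    refine ⟨exc U F, exc_hom U F hF, exc_ne U F hirr, ?_⟩
    intro f hf z1
    by_contra hz1
    obtain ⟨z0, b, j, k, hj, hk, hbjk, hG, hs⟩ := hE f hf (exc U F) z1 hz1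
    have hX : ∀ i (v : ℤ), ∀ x ∈ Pts U F, eval x (wp b v (F i)) = 0 := fun i v =>
      exc_sub U F (f z0) hG i _ (Finset.filter_subset _ _) (hs i v)
    have hpres : Preserves U b F := fun x hx t ht => orbit_mem hx (fun i v => hX i v x hx) ht
    obtain ⟨c, hc⟩ := hno b hpres (f z0) (hf.2.1 z0) 2 two_ne_zero
    have h2 : ∀ l, f z0 l ≠ 0 → (2 : ℂ) ^ b l = c := by
      intro l hl
      have h3 := congrFun hc l
      simp only [Pi.smul_apply, smul_eq_mul] at h3
      rw [mul_comm] at h3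
      exact mul_right_cancel₀ hl h3
    exact hbjk (two_inj ((h2 j hj).trans (h2 k hk).symm))

theorem picard_of_triv [Finite ι] (hF : ∀ i, ∃ d, (F i).IsHomogeneous d) (hP : PicP U F)
    (hirr : Irred U F)
    (h : ∀ b : Fin (n + 1) → ℤ, Preserves U b F → ActsTrivially U b F) : PseudoPicard U F := by
  classical
  have := Fintype.ofFinite ι
  refine ⟨exc U F, exc_hom U F hF, exc_ne U F hirr, ?_⟩
  rintro f hf ⟨z1, hz1, hG⟩
  by_contra hE
  obtain ⟨b, j, k, hj, hk, hbjk, hs⟩ := hP f hf hE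
  have hz1' : z1 ∈ PB 1 := mem_disc.mp hz1
  have hpres : Preserves U b F := by
    intro x hx t ht
    apply orbit_mem hx _ ht
    intro i v
    exact exc_sub U F (f z1) hG i _ (Finset.filter_subset _ _) (hs i v z1 hz1') x hx
  obtain ⟨z, hz, hgood⟩ := good_point (fun a : Fin 2 => fun w => f w (if a = 0 then j else k))
    (fun a => hf.an _) (by
      intro a
      fin_cases a
      · exact hj
      · exact hk)
  have h0 : f z j ≠ 0 := hgood 0
  have h1 : f z k ≠ 0 := hgood 1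
  obtain ⟨c, hc⟩ := h b hpres (f z) (hf.2 z (mem_disc.mpr hz)) 2 two_ne_zero
  have h2 : ∀ l, f z l ≠ 0 → (2 : ℂ) ^ b l = c := by
    intro l hl
    have h3 := congrFun hc l
    simp only [Pi.smul_apply, smul_eq_mul] at h3
    rw [mul_comm] at h3
    exact mul_right_cancel₀ hl h3
  exact hbjk (two_inj ((h2 j h0).trans (h2 k h1).symm))

/-- the three analytic conditions -/
theorem picard_gen [Finite ι] (hF : ∀ i, ∃ d, (F i).IsHomogeneous d) (hE : EntP U F)
    (hP : PicP U F) (hirr : Irred U F) :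
    (PseudoPicard U F ↔ PseudoBrody U F) ∧
      (PseudoBrody U F ↔ ∀ b : Fin (n + 1) → ℤ, Preserves U b F → ActsTrivially U b F) := by
  have h1 := brody_gen hF hE hirr
  exact ⟨⟨brody_of_picard U F, fun h => picard_of_triv hF hP hirr (h1.1 h)⟩, h1⟩

end

end Pool.Agent.X333.NM
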