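import Pool.Agent.X333.NM.Gen

/-!
Nested sums of few high powers of monomials, up to units: one-parameter groups from entire curves
and from essential punctured discs.
-/

set_option autoImplicit false

namespace Pool.Agent.X333.NM

open MvPolynomial Filter Metric Topology Pool.Agent.H159R3.GGLLog Pool.Agent.H159R3.NV
open Pool.Agent.H159R3 Pool.Agent.W603.BP Pool.Agent.H159R3.Exp
open Pool.Agent.TH710.NW (Good GateM TowerM Good.tail Good.head Good.pos eval_mono eval_sum_pow
  pow_spec pun_eval' towerM_spec exists_group graded_zero)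

variable {n : ℕ} {ι : Type}

open Classical in
/-- The variables `x_j`, `j ∈ U`, are replaced by their `E`-th powers. -/
noncomputable def usub (U : Set (Fin (n + 1))) (E : ℕ) :
    MvPolynomial (Fin (n + 1)) ℂ →ₐ[ℂ] MvPolynomial (Fin (n + 1)) ℂ :=
  aeval fun j => if j ∈ U then X j ^ E else X j

/-- `F` is a nested sum of few high powers of monomials, after the variables `x_j`, `j ∈ U`, have
been replaced by `E`-th powers for some `E`. -/
def TowerU (U : Set (Fin (n + 1))) (F : MvPolynomial (Fin (n + 1)) ℂ) : Prop :=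
  ∃ E : ℕ, 0 < E ∧ TowerM (usub U E F)

open Classical in
theorem eval_usub (U : Set (Fin (n + 1))) (E : ℕ) (F : MvPolynomial (Fin (n + 1)) ℂ)
    (y : Fin (n + 1) → ℂ) :
    eval y (usub U E F) = eval (fun j => if j ∈ U then y j ^ E else y j) F := by
  unfold usub
  have h1 : (eval y : MvPolynomial (Fin (n + 1)) ℂ →+* ℂ) =
      ((aeval y : MvPolynomial (Fin (n + 1)) ℂ →ₐ[ℂ] ℂ) :
        MvPolynomial (Fin (n + 1)) ℂ →+* ℂ) := by
    ext <;> simp
  rw [h1]
  change (aeval y : MvPolynomial (Fin (n + 1)) ℂ →ₐ[ℂ] ℂ) (aeval _ F) = _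
  rw [← MvPolynomial.aeval_eq_eval, MvPolynomial.comp_aeval_apply]
  congr 1
  congr 1
  funext j
  by_cases hj : j ∈ U
  · simp [hj]
  · simp [hj]

theorem tower_tower {U : Set (Fin (n + 1))} {F : MvPolynomial (Fin (n + 1)) ℂ} (h : TowerM F) :
    TowerU U F := by
  refine ⟨1, one_pos, ?_⟩
  have h1 : usub U 1 F = F := by
    apply MvPolynomial.funext
    intro y
    rw [eval_usub]
    congr 1
    congr 1
    funext j
    simp
  rwa [h1]

/-- **Entire curves.** -/
theorem ent_tower {U : Set (Fin (n + 1))} {F : ι → MvPolynomial (Fin (n + 1)) ℂ}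
    (hC : ∀ i, TowerU U (F i)) : EntP U F := by
  classical
  intro f hf G z1 hG
  obtain ⟨hfd0, hfX, hnc⟩ := hf
  obtain ⟨z0, b, j, k, h1, h2, h3, h4, h5⟩ := exists_group f hfd0 (fun z => (hfX z).1) hnc G z1 hG
  refine ⟨z0, b, j, k, h1, h2, h3, h4, fun i v => ?_⟩
  have hfj : ∀ j, Differentiable ℂ (fun z => f z j) := fun j => by
    rw [differentiable_pi] at hfd0
    exact hfd0 j
  obtain ⟨E, hE, hT⟩ := hC i
  have hEc : (E : ℂ) ≠ 0 := by exact_mod_cast hE.ne'
  have hroot : ∀ j, ∃ r : ℂ → ℂ, Differentiable ℂ r ∧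
      ∀ z, (if j ∈ U then r z ^ E else r z) = f z j := by
    intro j
    by_cases hj : j ∈ U
    · obtain ⟨r, hr1, hr2⟩ := Pool.Agent.H159R3.Toric.root _ (hfj j)
        (fun z => (hfX z).2.1 j hj) hE
      exact ⟨r, hr1, fun z => by rw [if_pos hj]; exact hr2 z⟩
    · exact ⟨fun z => f z j, hfj j, fun z => by rw [if_neg hj]⟩
  choose g hg hgf using hroot
  have hg0 : ∀ j ∈ U, ∀ z, g j z ≠ 0 := by
    intro j hj z h0
    have h6 := hgf j z
    rw [if_pos hj, h0, zero_pow hE.ne'] at h6
    exact (hfX z).2.1 j hj h6.symm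
  let c : Fin (n + 1) → ℤ := fun j => if j ∈ U then b j else E * b j
  have hlog : ∀ j, deriv (fun z => f z j) z0 / f z0 j =
      (if j ∈ U then (E : ℂ) else 1) * (deriv (g j) z0 / g j z0) := by
    intro j
    by_cases hj : j ∈ U
    · have h6 : (fun z => f z j) = fun z => g j z ^ E := by
        funext z
        rw [← hgf j z, if_pos hj]
      have h7 := logDeriv_fun_pow (hg j z0) E
      rw [← h6] at h7
      rw [if_pos hj]
      exact h7
    · have h6 : (fun z => f z j) = g j := by
        funext z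
        rw [← hgf j z, if_neg hj]
      have h7 : f z0 j = g j z0 := congrFun h6 z0
      rw [if_neg hj, h6, h7, one_mul]
  have key : ∀ s : ℂ, s ≠ 0 → eval (fun j => g j z0 * s ^ c j) (usub U E (F i)) = 0 := by
    intro s hs
    refine towerM_spec g z0 c s hT hg (fun q hq => ?_) hs (fun z => ?_)
    · have h6 := h5 (fun j => if j ∈ U then q j else E * q j) (by
        have h7 : ∀ j, (((if j ∈ U then q j else E * q j : ℤ) : ℂ)) *
            (deriv (fun z => f z j) z0 / f z0 j) =
            E * ((q j : ℂ) * (deriv (g j) z0 / g j z0)) := by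
          intro j
          rw [hlog j]
          by_cases hj : j ∈ U
          · simp only [hj, if_true]
            ring
          · simp only [hj, if_false]
            push_cast
            ring
        rw [Finset.sum_congr rfl fun j _ => h7 j, ← Finset.mul_sum, hq, mul_zero])
      rw [← h6]
      refine Finset.sum_congr rfl fun j _ => ?_
      simp only [c]
      by_cases hj : j ∈ U
      · simp only [hj, if_true]
      · simp only [hj, if_false]
        ring
    · rw [eval_usub]
      have h6 : (fun j => if j ∈ U then g j z ^ E else g j z) = f z := by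
        funext j
        exact hgf j z
      rw [h6]
      exact (hfX z).2.2 i
  have key2 : ∀ t : ℂ, t ≠ 0 → eval (fun j => f z0 j * t ^ b j) (F i) = 0 := by
    intro t ht
    obtain ⟨s, hs⟩ := IsAlgClosed.exists_pow_nat_eq t hE
    have hs0 : s ≠ 0 := by
      intro h0
      rw [h0, zero_pow hE.ne'] at hs
      exact ht hs.symm
    have h6 := key s hs0
    rw [eval_usub] at h6
    rw [← h6]
    congr 1
    congr 1
    funext j
    simp only [c]
    rw [← hgf j z0]
    by_cases hj : j ∈ U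
    · simp only [hj, if_true]
      rw [mul_pow, ← hs]
      congr 1
      rw [← zpow_natCast, ← zpow_natCast, ← zpow_mul, ← zpow_mul, mul_comm]
    · simp only [hj, if_false]
      rw [← hs]
      congr 1
      rw [← zpow_natCast, ← zpow_mul]
  have h6 := graded_zero (F i) (f z0) b key2 v
  unfold wp
  rw [eval_sub']
  exact h6

/-- Relations between gates along a family of germs are preserved by maps of the monomials. -/
theorem gateM_gspec {m : ℕ} (φ y : Fin m → ℂ → ℂ) (hφ : ∀ j, Pun (φ j))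
    (hy : ∀ (α β : Fin m →₀ ℕ) (ρ σ : ℂ → ℂ), MeromorphicAt ρ 0 → MeromorphicAt σ 0 →
      (∀ᶠ w in 𝓝[≠] (0 : ℂ), ρ w * ∏ j, φ j w ^ α j + σ w * ∏ j, φ j w ^ β j = 0) →
        ∀ᶠ w in 𝓝[≠] (0 : ℂ), ρ w * ∏ j, y j w ^ α j + σ w * ∏ j, y j w ^ β j = 0)
    (L : List (ℕ × ℕ)) : Good L → ∀ p q : MvPolynomial (Fin m) ℂ, GateM L p → GateM L q →
      ∀ ρ σ : ℂ → ℂ, MeromorphicAt ρ 0 → MeromorphicAt σ 0 →
      (∀ᶠ w in 𝓝[≠] (0 : ℂ), ρ w * eval (fun j => φ j w) p + σ w * eval (fun j => φ j w) q = 0) →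
      ∀ᶠ w in 𝓝[≠] (0 : ℂ), ρ w * eval (fun j => y j w) p + σ w * eval (fun j => y j w) q = 0 := by
  classical
  induction L with
  | nil =>
    rintro - p q ⟨α, a, rfl⟩ ⟨β, c, rfl⟩ ρ σ hρ hσ h
    have h1 := hy α β (fun w => ρ w * a) (fun w => σ w * c)
      (hρ.fun_mul (MeromorphicAt.const _ 0)) (hσ.fun_mul (MeromorphicAt.const _ 0)) (by
        filter_upwards [h] with w hw
        rw [eval_mono, eval_mono] at hw
        linear_combination hw)
    filter_upwards [h1] with w hw
    rw [eval_mono, eval_mono]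
    linear_combination hw
  | cons ke L ih =>
    rintro hL p q ⟨c, g, hg, rfl⟩ ⟨c', g', hg', rfl⟩ ρ σ hρ hσ h
    have hi := ih hL.tail
    let G : Fin ke.1 ⊕ Fin ke.1 → MvPolynomial (Fin m) ℂ := Sum.elim g g'
    have hG : ∀ i, GateM L (G i) := by
      rintro (i | i)
      · exact hg i
      · exact hg' i
    let cc : Fin ke.1 ⊕ Fin ke.1 → ℂ → ℂ :=
      Sum.elim (fun i w => ρ w * c i) (fun i w => σ w * c' i)
    have hcc : ∀ i, MeromorphicAt (cc i) 0 := by
      rintro (i | i)
      · exact hρ.fun_mul (MeromorphicAt.const _ 0)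
      · exact hσ.fun_mul (MeromorphicAt.const _ 0)
    have hsum : ∀ (v : Fin m → ℂ) (w : ℂ), ∑ i, cc i w * eval v (G i) ^ ke.2
        = ρ w * eval v (∑ i, C (c i) * g i ^ ke.2)
          + σ w * eval v (∑ i, C (c' i) * g' i ^ ke.2) := by
      intro v w
      rw [eval_sum_pow, eval_sum_pow, Fintype.sum_sum_type, Finset.mul_sum, Finset.mul_sum]
      congr 1
      · exact Finset.sum_congr rfl fun i _ => by simp only [cc, G, Sum.elim_inl]; ring
      · exact Finset.sum_congr rfl fun i _ => by simp only [cc, G, Sum.elim_inr]; ring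
    have h1 := pow_spec (N := ke.2) hL.pos
      (fun i z => eval (fun j => φ j z) (G i)) (fun i => pun_eval' hφ (G i))
      (fun i z => eval (fun j => y j z) (G i))
      (fun i h0 => by
        have := hi (G i) (G i) (hG i) (hG i) (fun _ => 1) (fun _ => 0)
          (MeromorphicAt.const _ 0) (MeromorphicAt.const _ 0) (by
            filter_upwards [h0] with w hw
            rw [hw]; ring)
        filter_upwards [this] with w hw
        simpa using hw)
      (fun i j α hα h0 => by
        have := hi (G i) (G j) (hG i) (hG j) (fun _ => 1) (fun w => -α w)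
          (MeromorphicAt.const _ 0) hα.neg (by
            filter_upwards [h0] with w hw
            rw [hw]; ring)
        filter_upwards [this] with w hw
        linear_combination hw)
      Finset.univ (by
        rw [Finset.card_univ, Fintype.card_sum, Fintype.card_fin, ← two_mul]
        exact hL.head.2) cc hcc (by
        filter_upwards [h] with w hw
        rw [hsum, hw])
    filter_upwards [h1] with w hw
    rw [← hsum, hw]

theorem towerM_gspec {m : ℕ} {F : MvPolynomial (Fin m) ℂ} (hF : TowerM F) (φ y : Fin m → ℂ → ℂ)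
    (hφ : ∀ j, Pun (φ j))
    (hy : ∀ (α β : Fin m →₀ ℕ) (ρ σ : ℂ → ℂ), MeromorphicAt ρ 0 → MeromorphicAt σ 0 →
      (∀ᶠ w in 𝓝[≠] (0 : ℂ), ρ w * ∏ j, φ j w ^ α j + σ w * ∏ j, φ j w ^ β j = 0) →
        ∀ᶠ w in 𝓝[≠] (0 : ℂ), ρ w * ∏ j, y j w ^ α j + σ w * ∏ j, y j w ^ β j = 0)
    (h : ∀ᶠ w in 𝓝[≠] (0 : ℂ), eval (fun j => φ j w) F = 0) :
    ∀ᶠ w in 𝓝[≠] (0 : ℂ), eval (fun j => y j w) F = 0 := by
  classical
  obtain ⟨s, e, L, c, g, he, hs, hL, hg, rfl⟩ := hF
  have hi := gateM_gspec φ y hφ hy L hL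
  have h1 := pow_spec (N := e) he
    (fun i z => eval (fun j => φ j z) (g i)) (fun i => pun_eval' hφ (g i))
    (fun i z => eval (fun j => y j z) (g i))
    (fun i h0 => by
      have := hi (g i) (g i) (hg i) (hg i) (fun _ => 1) (fun _ => 0)
        (MeromorphicAt.const _ 0) (MeromorphicAt.const _ 0) (by
          filter_upwards [h0] with w hw
          rw [hw]; ring)
      filter_upwards [this] with w hw
      simpa using hw)
    (fun i j α hα h0 => by
      have := hi (g i) (g j) (hg i) (hg j) (fun _ => 1) (fun w => -α w)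
        (MeromorphicAt.const _ 0) hα.neg (by
          filter_upwards [h0] with w hw
          rw [hw]; ring)
      filter_upwards [this] with w hw
      linear_combination hw)
    Finset.univ (by rw [Finset.card_univ, Fintype.card_fin]; exact hs) (fun i _ => c i)
    (fun i => MeromorphicAt.const _ 0) (by
      filter_upwards [h] with w hw
      rw [eval_sum_pow] at hw
      exact hw)
  filter_upwards [h1] with w hw
  rw [eval_sum_pow, hw]

theorem Gr.pow' {e e' : ℂ → ℂ} (h : Gr e e') (N : ℕ) :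
    Gr (fun w => e w ^ N) (fun w => e' w ^ N) := by
  induction N with
  | zero =>
    simp only [pow_zero]
    exact Gr.refl _
  | succ N ih =>
    simp only [pow_succ]
    exact ih.mul h

theorem ev_of_pow {P : ℂ → Prop} {N : ℕ} (hN : 0 < N)
    (h : ∀ᶠ t in 𝓝[≠] (0 : ℂ), P (t ^ N)) : ∀ᶠ w in 𝓝[≠] (0 : ℂ), P w := by
  obtain ⟨δ, hδ, h⟩ := ev_iff.mp h
  refine ev_iff.mpr ⟨δ ^ N, pow_pos hδ N, ?_⟩
  intro w hw
  obtain ⟨t, ht⟩ := IsAlgClosed.exists_pow_nat_eq w hN
  rw [← ht]
  apply h
  refine ⟨?_, ?_⟩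
  · intro h0
    rw [h0, zero_pow hN.ne'] at ht
    exact hw.1 ht.symm
  · have h2 : ‖t‖ ^ N < δ ^ N := by
      rw [← norm_pow, ht]
      exact hw.2
    exact lt_of_pow_lt_pow_left₀ N hδ.le h2

/-- **Punctured discs.** -/
theorem pic_tower {U : Set (Fin (n + 1))} {F : ι → MvPolynomial (Fin (n + 1)) ℂ}
    (hC : ∀ i, TowerU U (F i)) : PicP U F := by
  classical
  intro f hf hE
  have hfa := hf.an
  have hP : ∀ j, Pun (fun w => f w j) := fun j => on_pun one_pos (hfa j)
  have hX : ∀ w ∈ PB 1, f w ∈ Pts U F := fun w hw => hf.2 w (mem_disc.mpr hw)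
  let φ : Fin (n + 1) → ℂ → ℂ := fun j w => f w j
  obtain ⟨j, k, hj, hk, hjk⟩ : ∃ j k, Nz (φ j) ∧ Nz (φ k) ∧
      (Pi.single j 1 - Pi.single k 1 : Fin (n + 1) → ℤ) ∉ Mon φ := by
    by_contra hcon
    apply hE
    apply extends_of f hfa (fun w hw => (hX w hw).1)
    intro j k hj hk
    apply MRel_of_Mon (f := φ) hP j k hj hk
    by_contra hn
    exact hcon ⟨j, k, hj, hk, hn⟩
  obtain ⟨b, hb1, hb2⟩ := exists_form (Mon φ) (Mon_sat φ hP) _ hjk
  refine ⟨b, j, k, hj, hk, ?_, ?_⟩
  · intro h0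
    apply hb2
    simp only [Pi.sub_apply, sub_mul, Finset.sum_sub_distrib, Pi.single_apply, ite_mul, one_mul,
      zero_mul, Finset.sum_ite_eq', Finset.mem_univ, if_true]
    rw [h0, sub_self]
  intro i v
  obtain ⟨E, hE0, hT⟩ := hC i
  have hroot : ∀ j, ∃ r : ℂ → ℂ, Pun r ∧ ∀ᶠ t in 𝓝[≠] (0 : ℂ),
      (if j ∈ U then r t ^ E else r t) = f (t ^ E) j := by
    intro j
    by_cases hj : j ∈ U
    · obtain ⟨r, hr1, hr2⟩ := root (hP j) (by
        filter_upwards [PB_mem one_pos] with w hw
        exact (hX w hw).2.1 j hj) hE0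
      exact ⟨r, hr1, by
        filter_upwards [hr2] with t ht
        rw [if_pos hj]
        exact ht⟩
    · exact ⟨fun t => f (t ^ E) j, (hP j).comp_pow hE0, Eventually.of_forall fun t => by
        rw [if_neg hj]⟩
  choose ψ hψ hψf using hroot
  have hall : ∀ᶠ t in 𝓝[≠] (0 : ℂ), ∀ j, (if j ∈ U then ψ j t ^ E else ψ j t) = f (t ^ E) j := by
    rw [Filter.eventually_all]
    exact hψf
  let c : Fin (n + 1) → ℤ := fun j => if j ∈ U then b j else E * b j
  let A : (Fin (n + 1) →₀ ℕ) → Fin (n + 1) → ℕ := fun α j => if j ∈ U then α j else E * α j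
  have hpw : ∀ α : Fin (n + 1) →₀ ℕ, ∀ᶠ t in 𝓝[≠] (0 : ℂ),
      (∏ j, ψ j t ^ α j) ^ E = ∏ j, φ j (t ^ E) ^ A α j := by
    intro α
    filter_upwards [hall] with t ht
    rw [← Finset.prod_pow]
    refine Finset.prod_congr rfl fun j _ => ?_
    simp only [A, φ]
    rw [← ht j]
    by_cases hj : j ∈ U
    · simp only [hj, if_true]
      rw [← pow_mul, ← pow_mul, mul_comm]
    · simp only [hj, if_false]
      rw [← pow_mul, mul_comm]
  have hPA : ∀ α : Fin (n + 1) →₀ ℕ, Pun (fun t => ∏ j, ψ j t ^ α j) := fun α =>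
    Pun.prod _ fun j _ => (hψ j).pow _
  have hPφ : ∀ α : Fin (n + 1) →₀ ℕ, Pun (fun w => ∏ j, φ j w ^ A α j) := fun α =>
    Pun.prod _ fun j _ => (hP j).pow _
  -- the monomials
  have hmono : ∀ s : ℂ, s ≠ 0 → ∀ (α β : Fin (n + 1) →₀ ℕ) (ρ σ : ℂ → ℂ), MeromorphicAt ρ 0 →
      MeromorphicAt σ 0 →
      (∀ᶠ w in 𝓝[≠] (0 : ℂ), ρ w * ∏ j, ψ j w ^ α j + σ w * ∏ j, ψ j w ^ β j = 0) →
        ∀ᶠ w in 𝓝[≠] (0 : ℂ), ρ w * ∏ j, (ψ j w * s ^ c j) ^ α j +
          σ w * ∏ j, (ψ j w * s ^ c j) ^ β j = 0 := by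
    intro s hs α β ρ σ hρ hσ h
    have htm : ∀ (α : Fin (n + 1) →₀ ℕ) (w : ℂ), ∏ j, (ψ j w * s ^ c j) ^ α j =
        (∏ j, ψ j w ^ α j) * s ^ (∑ j, (α j : ℤ) * c j) := fun α w =>
      Pool.Agent.TH710.NW.torus_mono ψ w c s hs α
    by_cases hα : Nz (fun w => ρ w * ∏ j, ψ j w ^ α j)
    · have hρn : Nz ρ := by
        intro h0
        apply hα
        filter_upwards [h0] with w hw
        rw [hw, zero_mul]
      have hαn : Nz (fun w => ∏ j, ψ j w ^ α j) := by
        intro h0
        apply hα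
        filter_upwards [h0] with w hw
        rw [hw, mul_zero]
      have hβn : Nz (fun w => ∏ j, ψ j w ^ β j) := by
        intro h0
        apply hα
        filter_upwards [h0, h] with w hw hw2
        rw [hw, mul_zero, add_zero] at hw2
        exact hw2
      have hgr : Gr (fun w => ∏ j, ψ j w ^ α j) (fun w => ∏ j, ψ j w ^ β j) := by
        apply MRel.gr
        refine ⟨fun w => -σ w / ρ w, hσ.neg.fun_div hρ, ?_⟩
        filter_upwards [mero_ne hρ hρn, h] with w hw hw2
        field_simp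
        linear_combination hw2
      have hgr2 := Gr.pow' hgr E
      have hnz2 : ∀ α : Fin (n + 1) →₀ ℕ, Nz (fun w => ∏ j, ψ j w ^ α j) →
          Nz (fun w => ∏ j, φ j w ^ A α j) := by
        intro α h1 h0
        apply h1.pow E
        have h2 := (tendsto_pow_punct hE0).eventually h0
        filter_upwards [hpw α, h2] with w hw hw2
        rw [hw, hw2]
      have hgr3 : Gr (fun w => ∏ j, φ j w ^ A α j) (fun w => ∏ j, φ j w ^ A β j) := by
        apply gr_descend hE0
        obtain ⟨C, K, hCK⟩ := hgr2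
        refine ⟨C, K, ?_⟩
        filter_upwards [hCK, hpw α, hpw β] with w hw h1 h2
        rw [← h1, ← h2]
        exact hw
      have hmem := Mon_of_gr (f := φ) hP (A α) (A β) (hnz2 α hαn) (hnz2 β hβn) hgr3
      have h1 := hb1 _ hmem
      have hw : ∀ α : Fin (n + 1) →₀ ℕ, ∑ j, (α j : ℤ) * c j = ∑ j, (A α j : ℤ) * b j := by
        intro α
        refine Finset.sum_congr rfl fun j _ => ?_
        simp only [A, c]
        by_cases hj : j ∈ U
        · simp only [hj, if_true]
        · simp only [hj, if_false]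
          push_cast
          ring
      have hwt : ∑ j, (α j : ℤ) * c j = ∑ j, (β j : ℤ) * c j := by
        rw [hw, hw]
        simp only [sub_mul, Finset.sum_sub_distrib] at h1
        linarith
      filter_upwards [h] with w hw2
      rw [htm, htm, hwt]
      linear_combination s ^ (∑ j, (β j : ℤ) * c j) * hw2
    · have hα0 : ∀ᶠ w in 𝓝[≠] (0 : ℂ), ρ w * ∏ j, ψ j w ^ α j = 0 := not_not.mp hα
      filter_upwards [h, hα0] with w hw hw2
      rw [htm, htm, ← mul_assoc, hw2, zero_mul, zero_add, ← mul_assoc]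
      rw [hw2, zero_add] at hw
      rw [hw, zero_mul]
  have hzero : ∀ᶠ t in 𝓝[≠] (0 : ℂ), eval (fun j => ψ j t) (usub U E (F i)) = 0 := by
    have hXD : ∀ᶠ w in 𝓝[≠] (0 : ℂ), f (w ^ E) ∈ Pts U F :=
      (tendsto_pow_punct hE0).eventually (by
        filter_upwards [PB_mem one_pos] with w hw
        exact hX w hw)
    filter_upwards [hall, hXD] with t ht hw
    rw [eval_usub]
    have h6 : (fun j => if j ∈ U then ψ j t ^ E else ψ j t) = f (t ^ E) := by
      funext j
      exact ht j
    rw [h6]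
    exact hw.2.2 i
  -- the orbits
  have han : ∀ s : ℂ, AnalyticOnNhd ℂ (fun z => eval (fun j => f z j * s ^ b j) (F i)) (PB 1) := by
    intro s w hw
    simp only [eval_eq']
    apply Finset.analyticAt_fun_sum
    intro α _
    apply AnalyticAt.fun_mul analyticAt_const
    apply Finset.analyticAt_fun_prod
    intro j _
    exact ((hfa j w hw).fun_mul analyticAt_const).fun_pow _
  have horb : ∀ z ∈ PB 1, ∀ t : ℂ, t ≠ 0 → eval (fun j => f z j * t ^ b j) (F i) = 0 := by
    intro z hz t ht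
    obtain ⟨s, hs⟩ := IsAlgClosed.exists_pow_nat_eq t hE0
    have hs0 : s ≠ 0 := by
      intro h0
      rw [h0, zero_pow hE0.ne'] at hs
      exact ht hs.symm
    have h1 := towerM_gspec hT ψ (fun j w => ψ j w * s ^ c j) hψ (hmono s hs0) hzero
    have h2 : ∀ᶠ w in 𝓝[≠] (0 : ℂ), eval (fun j => f w j * t ^ b j) (F i) = 0 := by
      apply ev_of_pow hE0
      filter_upwards [h1, hall] with w hw ht'
      rw [eval_usub] at hw
      rw [← hw]
      congr 1
      congr 1
      funext j
      simp only [c]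
      rw [← ht' j]
      by_cases hj : j ∈ U
      · simp only [hj, if_true]
        rw [mul_pow, ← hs]
        congr 1
        rw [← zpow_natCast, ← zpow_natCast, ← zpow_mul, ← zpow_mul, mul_comm]
      · simp only [hj, if_false]
        rw [← hs]
        congr 1
        rw [← zpow_natCast, ← zpow_mul]
    exact eq_zero_on one_pos (han t) h2 z hz
  intro z hz
  have h6 := graded_zero (F i) (f z) b (horb z hz) v
  unfold wp
  rw [eval_sub']
  exact h6

end Pool.Agent.X333.NM
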